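import Pool.Agent.Lib.MP_acafa7_al.MS.H72.VOrb

/-! Star: the star of an interior vertex. -/

namespace MSG.H72

open Classical

variable {V : Type}

theorem zpow_adj {X : Cx V} {a : Equiv.Perm V} (ha : FreeAut X a) (n : ℤ) (x y : V) :
    X.G.Adj ((a ^ n) x) ((a ^ n) y) ↔ X.G.Adj x y := by
  have hnat : ∀ (n : ℕ) (x y : V), X.G.Adj ((a ^ n) x) ((a ^ n) y) ↔ X.G.Adj x y := by
    intro n
    induction n with
    | zero => intro x y; simp
    | succ n ih =>
      intro x y
      rw [pow_succ', Equiv.Perm.mul_apply, Equiv.Perm.mul_apply, ha.adj, ih]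
  obtain ⟨m, rfl | rfl⟩ := n.eq_nat_or_neg
  · rw [zpow_natCast]
    exact hnat m x y
  · have h := hnat m ((a ^ (-(m : ℤ))) x) ((a ^ (-(m : ℤ))) y)
    rw [← zpow_natCast, ← Equiv.Perm.mul_apply, ← Equiv.Perm.mul_apply, ← zpow_add,
      add_neg_cancel, zpow_zero] at h
    exact h.symm

theorem zpow_len {X : Cx V} {a : Equiv.Perm V} (ha : FreeAut X a) (n : ℤ) (x y : V) :
    X.len ((a ^ n) x) ((a ^ n) y) = X.len x y := by
  have hnat : ∀ (n : ℕ) (x y : V), X.len ((a ^ n) x) ((a ^ n) y) = X.len x y := by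
    intro n
    induction n with
    | zero => intro x y; simp
    | succ n ih =>
      intro x y
      rw [pow_succ', Equiv.Perm.mul_apply, Equiv.Perm.mul_apply, ha.len, ih]
  obtain ⟨m, rfl | rfl⟩ := n.eq_nat_or_neg
  · rw [zpow_natCast]
    exact hnat m x y
  · have h := hnat m ((a ^ (-(m : ℤ))) x) ((a ^ (-(m : ℤ))) y)
    rw [← zpow_natCast, ← Equiv.Perm.mul_apply, ← Equiv.Perm.mul_apply, ← zpow_add,
      add_neg_cancel, zpow_zero] at h
    exact h.symm

theorem zpow_zpow {a : Equiv.Perm V} (m n : ℤ) (x : V) :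
    (a ^ m) ((a ^ n) x) = (a ^ (m + n)) x := by
  rw [zpow_add, Equiv.Perm.mul_apply]

section

variable {D : Type} {a : Equiv.Perm V}

/-- the rotation about the source -/
def rot (M : DMap D) (d : D) : D := M.ι (M.φ.symm d)

theorem rot_inj (M : DMap D) : Function.Injective (rot M) := by
  intro x y h
  have h1 : M.ι (rot M x) = M.ι (rot M y) := congrArg _ h
  unfold rot at h1
  rw [M.ιι, M.ιι] at h1
  exact M.φ.symm.injective h1

theorem rot_tri (M : DMap D) {d : D} (h : M.Tri3 d) : rot M d = M.ι (M.φ (M.φ d)) := by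
  unfold rot
  congr 1
  rw [Equiv.symm_apply_eq]
  exact h.1.symm

theorem sameV_rot (M : DMap D) (d : D) (j : ℕ) : M.SameV d ((rot M)^[j] d) := by
  induction j with
  | zero => exact M.sameV_refl d
  | succ j ih =>
    rw [Function.iterate_succ_apply']
    exact M.sameV_trans ih (same_sigma M _)

theorem sameV_iff [Fintype D] (M : DMap D) (d d' : D) :
    M.SameV d d' ↔ ∃ j, j < Function.minimalPeriod (rot M) d ∧ (rot M)^[j] d = d' := by
  constructor
  · intro h
    rw [vorb] at h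
    obtain ⟨i, hi⟩ := h.exists_nat_pow_eq
    have hk : 0 < Function.minimalPeriod (rot M) d :=
      Function.minimalPeriod_pos_of_mem_periodicPts
        (Function.Injective.mem_periodicPts (rot_inj M) d)
    refine ⟨i % Function.minimalPeriod (rot M) d, Nat.mod_lt _ hk, ?_⟩
    rw [Function.iterate_mod_minimalPeriod_eq, ← hi]
    clear hi hk h
    induction i with
    | zero => rfl
    | succ i ih =>
      rw [Function.iterate_succ_apply', ih, pow_succ', Equiv.Perm.mul_apply]
      rfl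
  · rintro ⟨j, _, rfl⟩
    exact sameV_rot M d j

end

theorem star : StarStatement := by
  intro V D _ X a hX ha M B d₀ hadj hoff hint
  set k := Function.minimalPeriod (rot M.toDMap) d₀ with hk
  have hmem : d₀ ∈ Function.periodicPts (rot M.toDMap) :=
    Function.Injective.mem_periodicPts (rot_inj M.toDMap) d₀
  have hk0 : 0 < k := Function.minimalPeriod_pos_of_mem_periodicPts hmem
  set s : ℕ → D := fun j => (rot M.toDMap)^[j] d₀ with hs
  have hsV : ∀ j, M.SameV d₀ (s j) := fun j => sameV_rot M.toDMap d₀ j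
  have hTri : ∀ j, M.Tri (s j) := fun j => hoff.2 _ (hint _ (hsV j))
  have hstep : ∀ j, s (j + 1) = M.ι (M.φ (M.φ (s j))) := by
    intro j
    show (rot M.toDMap)^[j + 1] d₀ = _
    rw [Function.iterate_succ_apply']
    exact rot_tri M.toDMap (hTri j).1
  have hper : ∀ j, s (j + k) = s j := fun j => Function.iterate_add_minimalPeriod_eq
  set n : ℕ → ℤ := fun j => ∑ i ∈ Finset.range j,
    (M.h (s i) + M.h (M.φ (s i)) + M.γ (M.φ (M.φ (s i)))) with hn
  have hn0 : n 0 = 0 := by simp [hn]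
  have hnstep : ∀ j, n (j + 1) =
      n j + (M.h (s j) + M.h (M.φ (s j)) + M.γ (M.φ (M.φ (s j)))) := fun j => by
    rw [hn]
    exact Finset.sum_range_succ _ _
  -- label of the source along the orbit
  have hφ3 : ∀ j, M.φ (M.φ (M.φ (s j))) = s j := fun j => (hTri j).1.1
  have hh : ∀ j, M.h (s j) + M.h (M.φ (s j)) + M.h (M.φ (M.φ (s j))) = 0 := fun j => (hTri j).2
  have hlab : ∀ j, (a ^ n j) (M.f (s j)) = M.f d₀ := by
    intro j
    induction j with
    | zero => rw [hn0, zpow_zero]; rfl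
    | succ j ih =>
      rw [hnstep, hstep]
      have h1 := M.tgt (M.φ (M.φ (s j)))
      rw [hφ3] at h1
      rw [show n j + (M.h (s j) + M.h (M.φ (s j)) + M.γ (M.φ (M.φ (s j)))) =
        (n j + M.h (s j) + M.h (M.φ (s j))) + M.γ (M.φ (M.φ (s j))) by ring, ← zpow_zpow, h1,
        zpow_zpow]
      rw [show n j + M.h (s j) + M.h (M.φ (s j)) + M.h (M.φ (M.φ (s j))) = n j by
        have := hh j; linarith]
      exact ih
  have hnper : ∀ j, n (j + k) = n j := by
    intro j
    have h1 := hlab (j + k)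
    rw [hper, ← hlab j] at h1
    have h2 := ha.free (M.f (s j)) (-(n j) + n (j + k)) (by
      rw [← zpow_zpow, h1, zpow_zpow, neg_add_cancel, zpow_zero]; rfl)
    linarith
  set u : ℕ → V := fun j => (a ^ n j) (M.t (s j)) with hu
  have ht1 : ∀ d, M.t d = (a ^ M.h d) (M.f (M.φ d)) := fun d => M.tgt d
  have hu1 : ∀ j, u j = (a ^ (n j + M.h (s j))) (M.f (M.φ (s j))) := by
    intro j
    show (a ^ n j) (M.t (s j)) = _
    rw [ht1, zpow_zpow]
  have hu2' : ∀ j, u (j + 1) = (a ^ (n j + M.h (s j) + M.h (M.φ (s j))))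
      (M.f (M.φ (M.φ (s j)))) := by
    intro j
    show (a ^ n (j + 1)) (M.t (s (j + 1))) = _
    have h1 : M.t (s (j + 1)) = (a ^ (-M.γ (M.φ (M.φ (s j))))) (M.f (M.φ (M.φ (s j)))) := by
      unfold LMap.t
      rw [hstep, M.γι, M.ιι]
    rw [h1, zpow_zpow, hnstep]
    congr 2
    ring
  have hu2 : ∀ j, u (j + 1) = (a ^ (n j + M.h (s j))) (M.t (M.φ (s j))) := by
    intro j
    rw [hu2', ht1, zpow_zpow]
  have hadj1 : ∀ j, X.G.Adj (M.f d₀) (u j) := by
    intro j
    show X.G.Adj (M.f d₀) ((a ^ n j) (M.t (s j)))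
    rw [← hlab j, zpow_adj ha]
    exact hadj _
  have hadj2 : ∀ j, X.G.Adj (u j) (u (j + 1)) := by
    intro j
    rw [hu1, hu2, zpow_adj ha]
    exact hadj _
  have hang : ∀ j, X.A (M.f d₀) (u j) (u (j + 1)) = M.th (M.lenM X) (s j) := by
    intro j
    unfold Cx.A DMap.th LMap.lenM
    have e1 : X.len (M.f d₀) (u j) = X.len (M.f (s j)) (M.t (s j)) := by
      show X.len (M.f d₀) ((a ^ n j) (M.t (s j))) = _
      rw [← hlab j, zpow_len ha]
    have e2 : X.len (M.f d₀) (u (j + 1)) =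
        X.len (M.f (M.φ (M.φ (s j)))) (M.t (M.φ (M.φ (s j)))) := by
      rw [hX.symm, hu2', ht1 (M.φ (M.φ (s j))), hφ3, ← hlab j,
        show n j = n j + M.h (s j) + M.h (M.φ (s j)) + M.h (M.φ (M.φ (s j))) by
          have := hh j; linarith,
        ← zpow_zpow (n j + M.h (s j) + M.h (M.φ (s j))) (M.h (M.φ (M.φ (s j))))]
      rw [show n j + M.h (s j) + M.h (M.φ (s j)) + M.h (M.φ (M.φ (s j))) + M.h (s j) +
        M.h (M.φ (s j)) = n j + M.h (s j) + M.h (M.φ (s j)) by have := hh j; linarith]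
      rw [zpow_len ha]
    have e3 : X.len (u j) (u (j + 1)) = X.len (M.f (M.φ (s j))) (M.t (M.φ (s j))) := by
      rw [hu1, hu2, zpow_len ha]
    rw [e1, e2, e3]
  have hinj : ∀ j j', j < k → j' < k → s j = s j' → j = j' := by
    intro j j' hj hj' hjj
    exact Function.iterate_injOn_Iio_minimalPeriod (Set.mem_Iio.2 hj) (Set.mem_Iio.2 hj') hjj
  have hk2 : 2 ≤ k := by
    by_contra hcon
    have hk1 : k = 1 := by omega
    have h1 := hadj2 0
    have h2 : u (0 + 1) = u 0 := by
      show (a ^ n (0 + 1)) (M.t (s (0 + 1))) = (a ^ n 0) (M.t (s 0))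
      rw [← hk1, hper, hnper]
    rw [h2] at h1
    exact X.G.irrefl h1
  have hV : ∀ d, M.SameV d₀ d ↔ ∃ j, j < k ∧ s j = d := fun d => sameV_iff M.toDMap d₀ d
  refine ⟨k, s, n, u, hk2, rfl, hn0, hper, hnper, fun j => rfl, hstep, hinj, hV, hlab, hu2, hadj1,
    hadj2, hang, ?_⟩
  -- the curvature
  unfold DMap.curv
  congr 1
  simp only [hang]
  have hsum : ∑ d : D, (if M.SameV d₀ d then M.wt (M.lenM X) B d else 0) =
      ∑ d ∈ (Finset.range k).image s, M.wt (M.lenM X) B d := by
    rw [← Finset.sum_filter]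
    refine Finset.sum_congr ?_ fun _ _ => rfl
    ext d
    simp only [Finset.mem_filter, Finset.mem_univ, true_and, Finset.mem_image, Finset.mem_range]
    rw [hV]
  rw [hsum, Finset.sum_image]
  · refine Finset.sum_congr rfl fun j _ => ?_
    unfold DMap.wt
    rw [if_neg (hint _ (hsV j))]
  · intro j hj j' hj' hjj
    simp only [Finset.coe_range, Set.mem_Iio] at hj hj'
    exact hinj j j' hj hj' hjj

end MSG.H72
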