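import Pool.Agent.Lib.MP_acafa7_al.MS.H72.Star

/-! StarDel: deletion of a loopless interior vertex. -/

namespace MSG.H72

open Classical

variable {V D : Type} {a : Equiv.Perm V}

/-- change of the charts of the darts -/
def rech (M : LMap V D a) (c : D → ℤ) : LMap V D a where
  φ := M.φ
  ι := M.ι
  ιι := M.ιι
  ne := M.ne
  f d := (a ^ c d) (M.f d)
  γ d := c d + M.γ d - c (M.ι d)
  h d := c d + M.h d - c (M.φ d)
  γι d := by
    rw [M.ιι, M.γι]
    ring
  tgt d := by
    rw [zpow_zpow, zpow_zpow, sub_add_cancel, sub_add_cancel, ← zpow_zpow, ← zpow_zpow, M.tgt]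

theorem rech_t (M : LMap V D a) (c : D → ℤ) (d : D) : (rech M c).t d = (a ^ c d) (M.t d) := by
  show (a ^ (c d + M.γ d - c (M.ι d))) ((a ^ c (M.ι d)) (M.f (M.ι d))) = _
  rw [zpow_zpow, sub_add_cancel, ← zpow_zpow]
  rfl

theorem rech_planar (M : LMap V D a) (c : D → ℤ) (h : M.Planar) : (rech M c).Planar := h

/-- the lifted walk of a face -/
theorem wk_eq (ha : ∀ (x : V) (n : ℤ), (a ^ n) x = x → n = 0) (N : LMap V D a) (u : ℕ → V)
    (m : ℕ → ℤ) (r : ℕ → D) (k : ℕ) (hφ : ∀ j, j < k → N.φ (r j) = r (j + 1))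
    (h1 : ∀ j, (a ^ m j) (N.f (r j)) = u j) (h2 : ∀ j, (a ^ m j) (N.t (r j)) = u (j + 1))
    (hm : m 0 = 0) (hk : 1 ≤ k) :
    N.wk ((List.range k).map r) = (List.range (k + 1)).map u := by
  have hh : ∀ j, j < k → N.h (r j) = m (j + 1) - m j := by
    intro j hj
    have e1 : N.t (r j) = (a ^ N.h (r j)) (N.f (r (j + 1))) := by
      have := N.tgt (r j)
      rw [hφ j hj] at this
      exact this
    have e2 : (a ^ (m j + N.h (r j))) (N.f (r (j + 1))) = (a ^ m (j + 1)) (N.f (r (j + 1))) := by
      rw [h1, ← zpow_zpow, ← e1, h2]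
    have e3 := ha (N.f (r (j + 1))) (-m (j + 1) + (m j + N.h (r j))) (by
      rw [← zpow_zpow, e2, zpow_zpow, neg_add_cancel, zpow_zero]
      rfl)
    linarith
  have key : ∀ len i, i + len = k → N.wkA (m i) ((List.range' i len).map r) =
      (List.range' (i + 1) len).map u := by
    intro len
    induction len with
    | zero => intro i _; rfl
    | succ len ih =>
      intro i hi
      rw [List.range'_succ, List.range'_succ, List.map_cons, List.map_cons]
      show (a ^ m i) (N.t (r i)) :: N.wkA (m i + N.h (r i)) _ = _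
      rw [h2, hh i (by omega), add_sub_cancel, ih (i + 1) (by omega)]
  obtain ⟨k, rfl⟩ : ∃ k', k = k' + 1 := ⟨k - 1, by omega⟩
  have e := key (k + 1) 0 (by omega)
  rw [hm] at e
  have e0 : u 0 = N.f (r 0) := by
    rw [← h1, hm, zpow_zero]
    rfl
  rw [List.range_eq_range', List.range_eq_range']
  conv_rhs => rw [List.range'_succ, List.map_cons, e0, ← e]
  rw [List.range'_succ, List.map_cons]
  rfl

theorem face_range (M : DMap D) (r : ℕ → D) (k : ℕ) (hk : 1 ≤ k) (hr : r k = r 0)
    (h : M.IsFace ((List.range k).map r)) : ∀ j, j < k → M.φ (r j) = r (j + 1) := by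
  intro j hj
  have h1 := h.2.2
  have h2 : (((List.range k).map r).map M.φ)[j]? = (((List.range k).map r).rotate 1)[j]? := by
    rw [h1]
  rw [List.getElem?_map, List.getElem?_map, List.getElem?_range hj, List.getElem?_rotate
    (by simpa using hj)] at h2
  simp only [List.length_map, List.length_range, Option.map_some] at h2
  rw [List.getElem?_map, List.getElem?_range (Nat.mod_lt _ (by omega))] at h2
  simp only [Option.map_some, Option.some.injEq] at h2
  rw [h2]
  by_cases hjk : j + 1 < k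
  · rw [Nat.mod_eq_of_lt hjk]
  · have : j + 1 = k := by omega
    rw [this, Nat.mod_self, hr]

/-- a face is closed under `φ` and `φ⁻¹` -/
theorem face_mem (M : DMap D) (l : List D) (h : M.IsFace l) (d : D) : M.φ d ∈ l ↔ d ∈ l := by
  have h1 : M.φ d ∈ l.map M.φ ↔ M.φ d ∈ l := by
    rw [h.2.2, List.mem_rotate]
  rw [← h1, List.mem_map]
  constructor
  · rintro ⟨x, hx, hxd⟩
    rwa [M.φ.injective hxd] at hx
  · intro hd
    exact ⟨d, hd, rfl⟩

theorem stardel (hStar : StarStatement) (hDelV : DelVStatement) : StarDelStatement := by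
  intro V D _ X a hX ha M B d₀ ω hpl hadj hoff hint hloop
  obtain ⟨k, s, n, u, hk2, hs0, hn0, hper, hnper, hudef, hstep, hinj, hV, hlab, hu2, hadj1,
    hadj2, hang, hcurv⟩ := hStar V D X a hX ha M B d₀ hadj hoff hint
  have hfree := ha.free
  -- facts on the spokes
  have hsV : ∀ j, M.SameV d₀ (s j) := by
    intro j
    have h1 : ∀ i j, s (j + i * k) = s j := by
      intro i
      induction i with
      | zero => intro j; simp
      | succ i ih =>
        intro j
        rw [show j + (i + 1) * k = (j + i * k) + k by ring, hper, ih]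
    rw [hV]
    refine ⟨j % k, Nat.mod_lt _ (by omega), ?_⟩
    rw [← h1 (j / k) (j % k)]
    congr 1
    rw [mul_comm]
    exact Nat.mod_add_div j k
  have hnB : ∀ j, s j ∉ B := fun j => hint _ (hsV j)
  have hTri : ∀ j, M.Tri (s j) := fun j => hoff.2 _ (hnB j)
  have hφ3 : ∀ j, M.φ (M.φ (M.φ (s j))) = s j := fun j => (hTri j).1.1
  have hne1 : ∀ j, M.φ (s j) ≠ s j := fun j => (hTri j).1.2
  have hh : ∀ j, M.h (s j) + M.h (M.φ (s j)) + M.h (M.φ (M.φ (s j))) = 0 := fun j => (hTri j).2
  have hBφ : ∀ d, M.φ d ∈ B → ∀ j, d ≠ M.φ (s j) ∧ d ≠ s j := by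
    intro d hd j
    constructor
    · rintro rfl
      exact hnB j (hφ3 j ▸ hoff.1 _ hd)
    · rintro rfl
      exact hnB j (hφ3 j ▸ hoff.1 _ (hoff.1 _ hd))
  have hφB : ∀ j, M.φ (s j) ∉ B := fun j hj => (hBφ _ hj j).2 rfl
  have hφφB : ∀ j, M.φ (M.φ (s j)) ∉ B := fun j hj => (hBφ _ hj j).1 rfl
  have F2 : ∀ j j', s j ≠ M.ι (s j') := by
    intro j j' h
    refine hloop _ (hsV j') ?_
    rw [← h]
    exact M.sameV_trans (M.sameV_symm (hsV j')) (hsV j)
  have F4 : ∀ j j', M.φ (s j) ≠ s j' := by
    intro j j' h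
    refine hloop _ (hsV j) ?_
    refine M.sameV_trans ?_ (M.sameV_step (s j))
    rw [h]
    exact M.sameV_trans (M.sameV_symm (hsV j)) (hsV j')
  have hι : ∀ j, M.ι (s (j + 1)) = M.φ (M.φ (s j)) := fun j => by rw [hstep, M.ιι]
  have F5 : ∀ j j', M.φ (s j') ≠ M.ι (s j) := by
    intro j j' h
    refine hloop _ (hsV (j' + 1)) ?_
    rw [hι, h]
    refine M.sameV_symm (M.sameV_trans (M.sameV_step (M.ι (s j))) ?_)
    rw [M.ιι]
    exact M.sameV_trans (M.sameV_symm (hsV j)) (hsV (j' + 1))
  obtain ⟨K, rfl⟩ : ∃ K, k = K + 1 := ⟨k - 1, by omega⟩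
  have hs0' : s (K + 1) = s 0 := by
    have := hper 0
    rwa [zero_add] at this
  -- deletion
  have hface0 : M.IsFace (M.φ (M.φ (s K)) :: s K :: [M.φ (s K)]) := by
    refine ⟨by simp, ?_, ?_⟩
    · have e1 : M.φ (M.φ (s K)) ≠ s K := by
        intro h
        have := congrArg M.φ h
        rw [hφ3] at this
        exact hne1 K this.symm
      have e2 : M.φ (M.φ (s K)) ≠ M.φ (s K) := fun h => hne1 K (M.φ.injective h)
      simp only [List.nodup_cons, List.mem_cons, List.not_mem_nil, or_false, not_or,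
        not_false_eq_true, List.nodup_nil, and_true]
      exact ⟨⟨e1, e2⟩, fun h => hne1 K h.symm⟩
    · simp [hφ3, List.rotate_cons_succ]
  obtain ⟨D', _, M', q, R', hq, hrange, hface, hRmap, hhol, hφ', hι', hSame, hPl', hZero'⟩ :=
    hDelV V D a hfree M (M.φ (M.φ (s K))) (s K) [M.φ (s K)] K s (by omega) hface0
      (by rw [← hι K, hs0', M.ιι]) rfl
      (by
        intro j hj
        refine ⟨hTri j, hstep j, ?_⟩
        simp only [List.mem_cons, List.not_mem_nil, or_false, not_or]
        refine ⟨?_, ?_, fun h => F4 K j h.symm⟩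
        · rw [← hι K]
          exact F2 j (K + 1)
        · intro h
          have := hinj j K (by omega) (by omega) h
          omega)
      (fun j j' hj hj' h => hinj j j' (by omega) (by omega) h)
      (fun j j' _ _ => F2 j j') (fun j j' _ _ => F4 j j') (fun j j' _ _ => F5 j j')
  -- the darts of the new face
  have hφk : ∀ j, ∃ r, q r = M.φ (s j) := by
    intro j
    rw [hrange]
    exact fun j' _ => ⟨F4 j j', F5 j' j⟩
  choose r hr using hφk
  have hr0 : r (K + 1) = r 0 := hq (by rw [hr, hr, hs0'])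
  have hR' : R' = (List.range (K + 1)).map r := by
    apply (List.map_injective_iff.2 hq)
    rw [hRmap, List.map_map, List.range_succ, List.map_append]
    simp [hr, Function.comp_def]
  have ht' : ∀ x, M'.t x = M.t (q x) := by
    intro x
    unfold LMap.t
    rw [(hι' x).2.2, (hι' (M'.ι x)).2.1, (hι' x).1]
  set c : D' → ℤ := fun d => if d = r 0 then n 0 + M.h (s 0) else 0 with hc
  set N : LMap V D' a := rech M' c with hN
  have hwk : N.wk ((List.range (K + 1)).map r) = (List.range (K + 1 + 1)).map u := by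
    refine wk_eq hfree N u (fun j => n j + M.h (s j) - c (r j)) r (K + 1)
      (face_range M'.toDMap r (K + 1) (by omega) hr0 (hR' ▸ hface)) ?_ ?_ ?_ (by omega)
    · intro j
      show (a ^ (n j + M.h (s j) - c (r j))) ((a ^ c (r j)) (M'.f (r j))) = u j
      rw [zpow_zpow, sub_add_cancel, (hι' (r j)).2.1, hr, ← zpow_zpow, ← M.tgt, hudef]
      rfl
    · intro j
      show (a ^ (n j + M.h (s j) - c (r j))) (N.t (r j)) = u (j + 1)
      rw [hN, rech_t, zpow_zpow, sub_add_cancel, ht', hr, hu2]
    · show n 0 + M.h (s 0) - c (r 0) = 0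
      rw [hc]
      simp
  have hRmem : ∀ x, x ∈ R' → ∃ j, j < K + 1 ∧ r j = x := by
    intro x hx
    rw [hR', List.mem_map] at hx
    obtain ⟨j, hj, rfl⟩ := hx
    exact ⟨j, List.mem_range.1 hj, rfl⟩
  have hr0R : r 0 ∈ R' := by
    rw [hR', List.mem_map]
    exact ⟨0, List.mem_range.2 (by omega), rfl⟩
  have hc0 : ∀ x, x ∉ R' → c x = 0 := by
    intro x hx
    rw [hc]
    show (if x = r 0 then _ else _) = _
    rw [if_neg]
    rintro rfl
    exact hx hr0R
  have hιB : ∀ j, M.ι (s j) ∉ B := by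
    intro j
    rcases j with _ | j
    · rw [← hs0', hι]
      exact hφφB K
    · rw [hι]
      exact hφφB j
  have hBq : ∀ x : B, ∃ x', q x' = x := by
    rintro ⟨x, hx⟩
    rw [hrange]
    intro j _
    exact ⟨fun h => hnB j (h ▸ hx), fun h => hιB j (h ▸ hx)⟩
  choose jB hjB using hBq
  have hRB : ∀ x, x ∈ R' → q x ∉ B := by
    intro x hx hxB
    obtain ⟨j, _, rfl⟩ := hRmem x hx
    rw [hr] at hxB
    exact hφB j hxB
  have hjR : ∀ x, jB x ∉ R' := by
    intro x hx
    refine hRB _ hx ?_
    rw [hjB]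
    exact x.2
  have hmemR : ∀ d, M'.φ d ∈ R' ↔ d ∈ R' := face_mem M'.toDMap R' hface
  have hφR : ∀ x, x ∉ R' → M'.φ x ∉ R' := fun x hx h => hx ((hmemR x).1 h)
  -- sums over all darts
  have hsum : ∀ (A : Type) [AddCommMonoid A] (g : D → A), ∑ d, g d = ∑ d', g (q d') +
      (∑ j ∈ Finset.range (K + 1), g (s j) + ∑ j ∈ Finset.range (K + 1), g (M.ι (s j))) := by
    intro A _ g
    have hun : (Finset.univ : Finset D) = (Finset.univ.image q) ∪
        ((Finset.range (K + 1)).image s ∪ (Finset.range (K + 1)).image (fun j => M.ι (s j))) := by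
      ext d
      simp only [Finset.mem_univ, Finset.mem_union, Finset.mem_image, Finset.mem_range, true_and,
        true_iff]
      by_cases hd : ∃ x', q x' = d
      · exact Or.inl hd
      · rw [hrange] at hd
        push Not at hd
        obtain ⟨j, hj, hd⟩ := hd
        by_cases h1 : d = s j
        · exact Or.inr (Or.inl ⟨j, by omega, h1.symm⟩)
        · exact Or.inr (Or.inr ⟨j, by omega, (hd h1).symm⟩)
    rw [hun, Finset.sum_union, Finset.sum_union, Finset.sum_image, Finset.sum_image,
      Finset.sum_image]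
    · intro j hj j' hj' h
      simp only [Finset.coe_range, Set.mem_Iio] at hj hj'
      have h' := congrArg M.ι h
      simp only [M.ιι] at h'
      exact hinj j j' hj hj' h'
    · intro j hj j' hj' h
      simp only [Finset.coe_range, Set.mem_Iio] at hj hj'
      exact hinj j j' hj hj' h
    · exact fun x _ y _ h => hq h
    · rw [Finset.disjoint_left]
      intro d hd hd'
      simp only [Finset.mem_image, Finset.mem_range] at hd hd'
      obtain ⟨j, _, rfl⟩ := hd
      obtain ⟨j', _, h⟩ := hd'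
      exact F2 j j' h.symm
    · rw [Finset.disjoint_left]
      intro d hd hd'
      simp only [Finset.mem_image, Finset.mem_univ, true_and] at hd
      have hd2 := (hrange d).1 hd
      simp only [Finset.mem_union, Finset.mem_image, Finset.mem_range] at hd'
      rcases hd' with ⟨j, hj, h⟩ | ⟨j, hj, h⟩
      · exact (hd2 j (by omega)).1 h.symm
      · exact (hd2 j (by omega)).2 h.symm
  have hcard : Fintype.card D' + 2 * (K + 1) = Fintype.card D := by
    have := hsum ℕ (fun _ => 1)
    simp only [Finset.sum_const, Finset.card_univ, smul_eq_mul, mul_one, Finset.card_range] at this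
    omega
  have hNf : ∀ x, x ∉ R' → N.f x = M.f (q x) := by
    intro x hx
    show (a ^ c x) (M'.f x) = _
    rw [hc0 x hx, zpow_zero, (hι' x).2.1]
    rfl
  have hNh : ∀ x, x ∉ R' → N.h x = M.h (q x) := by
    intro x hx
    show c x + M'.h x - c (M'.φ x) = _
    rw [hc0 x hx, hc0 _ (hφR x hx), (hφ' x hx).2]
    ring
  have hqB : ∀ d, d ∉ Set.range jB ∪ {d | d ∈ R'} → q d ∉ B ∧ d ∉ R' := by
    intro d hd
    simp only [Set.mem_union, Set.mem_range, Set.mem_ofPred_eq, not_or] at hd
    refine ⟨fun h => hd.1 ⟨⟨q d, h⟩, hq (hjB _)⟩, hd.2⟩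
  have hZero : M.Zero → (∀ j, M.f (s j) = M.f d₀) ∧ (∀ j, n j = 0) ∧
      (∀ j, u j = M.f (M.φ (s j))) := by
    intro hz
    have e1 : ∀ j, M.f (s j) = M.f d₀ := by
      intro j
      induction j with
      | zero => rw [hs0]
      | succ j ih =>
        rw [hstep, ← ih]
        have h1 := M.tgt (M.φ (M.φ (s j)))
        rw [hφ3, (hz _).1, (hz _).2, zpow_zero] at h1
        exact h1
    have e2 : ∀ j, n j = 0 := by
      intro j
      have h1 := hlab j
      rw [e1 j] at h1
      exact hfree _ _ h1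
    refine ⟨e1, e2, fun j => ?_⟩
    rw [hudef, e2, zpow_zero]
    show M.t (s j) = _
    have h1 := M.tgt (s j)
    rw [(hz _).2, zpow_zero] at h1
    exact h1
  refine ⟨K + 1, u, hk2, fun j => ?_, hadj1, hadj2, hcurv, ?_, D', inferInstance, N, R', jB,
    ⟨hface, 0, ?_, fun _ => rfl⟩, ?_, hcard, ?_, hjR, ?_, ?_, rech_planar M' c (hPl' hpl), ?_,
    ⟨?_, ?_⟩, ?_⟩
  · rw [hudef, hudef, hper, hnper]
  · intro hz j
    exact ⟨_, (hZero hz).2.2 j⟩
  · rw [hR', hwk]
    simp
  · rw [hR']
    simp
  · intro x y h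
    have := congrArg q h
    rw [hjB, hjB] at this
    exact Subtype.ext this
  · intro x y hxy
    apply hq
    show q (M'.φ (jB x)) = q (jB y)
    rw [(hφ' _ (hjR x)).1, hjB, hjB, hxy]
  · intro x
    rw [hNf _ (hjR x), hNh _ (hjR x), hjB]
    exact ⟨rfl, rfl⟩
  · intro d
    rw [hN, rech_t]
    show X.G.Adj ((a ^ c d) (M'.f d)) _
    rw [zpow_adj ha, ht', (hι' d).2.1]
    exact hadj _
  · rintro d (⟨x, rfl⟩ | hd)
    · left
      refine ⟨⟨M.φ x, hoff.1 _ x.2⟩, ?_⟩
      apply hq
      show q _ = q (M'.φ (jB x))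
      rw [hjB, (hφ' _ (hjR x)).1, hjB]
    · right
      exact (hmemR d).2 hd
  · intro d hd
    obtain ⟨hdB, hdR⟩ := hqB d hd
    have hT := hoff.2 _ hdB
    have g1 := hφ' d hdR
    have g2 := hφ' _ (hφR d hdR)
    have g3 := hφ' _ (hφR _ (hφR d hdR))
    have e3 : M'.φ (M'.φ (M'.φ d)) = d := by
      apply hq
      rw [g3.1, g2.1, g1.1]
      exact hT.1.1
    refine ⟨⟨e3, fun h => hT.1.2 ?_⟩, ?_⟩
    · rw [← g1.1]
      exact congrArg q h
    · show N.h d + N.h (M'.φ d) + N.h (M'.φ (M'.φ d)) = 0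
      rw [hNh _ hdR, hNh _ (hφR d hdR), hNh _ (hφR _ (hφR d hdR)), g2.1, g1.1]
      exact hT.2
  · intro hz
    obtain ⟨z1, z2, z3⟩ := hZero hz
    have hcz : ∀ d, c d = 0 := by
      intro d
      rw [hc]
      show (if d = r 0 then _ else _) = _
      split_ifs
      · rw [hn0, (hz _).2, add_zero]
      · rfl
    have hz' := hZero' hz
    have hNf' : ∀ x, N.f x = M.f (q x) := by
      intro x
      show (a ^ c x) (M'.f x) = _
      rw [hcz, zpow_zero, (hι' x).2.1]
      rfl
    refine ⟨fun d => ⟨?_, ?_⟩, fun d' => ⟨q d', hNf' d'⟩, fun hω => ?_⟩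
    · show c d + M'.γ d - c (M'.ι d) = 0
      rw [hcz, hcz, (hz' d).1]
      ring
    · show c d + M'.h d - c (M'.φ d) = 0
      rw [hcz, hcz, (hz' d).2]
      ring
    · have u1 : ∀ j, u (j + 1) = M.f (M.φ (M.φ (s j))) := by
        intro j
        rw [hu2, z2, (hz _).2, add_zero, zpow_zero]
        show M.t _ = _
        have h1 := M.tgt (M.φ (s j))
        rw [(hz _).2, zpow_zero] at h1
        exact h1
      set g : D → ZMod 2 := fun d => if d ∈ B then 0 else
        ω (M.f d) (M.f (M.φ d)) (M.f (M.φ (M.φ d))) with hg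
      set T : ℕ → ZMod 2 := fun j => ω (M.f d₀) (u j) (u (j + 1)) with hT
      have t0 : ∀ j, g (s j) = T j := by
        intro j
        show (if s j ∈ B then 0 else ω (M.f (s j)) (M.f (M.φ (s j)))
          (M.f (M.φ (M.φ (s j))))) = ω (M.f d₀) (u j) (u (j + 1))
        rw [if_neg (hnB j), z1, u1, z3]
      have t1 : ∀ j, g (M.φ (s j)) = T j := by
        intro j
        show (if M.φ (s j) ∈ B then 0 else ω (M.f (M.φ (s j))) (M.f (M.φ (M.φ (s j))))
          (M.f (M.φ (M.φ (M.φ (s j)))))) = ω (M.f d₀) (u j) (u (j + 1))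
        rw [if_neg (hφB j), hφ3, ← u1, ← z3, z1, (hω _ _ _).2, (hω _ _ _).1]
      have t2 : ∀ j, g (M.φ (M.φ (s j))) = T j := by
        intro j
        show (if M.φ (M.φ (s j)) ∈ B then 0 else ω (M.f (M.φ (M.φ (s j))))
          (M.f (M.φ (M.φ (M.φ (s j))))) (M.f (M.φ (M.φ (M.φ (M.φ (s j))))))) =
            ω (M.f d₀) (u j) (u (j + 1))
        rw [if_neg (hφφB j), hφ3, ← u1, ← z3, z1, (hω _ _ _).1, (hω _ _ _).2]
      have w1 : M.wsum B ω = ∑ d, g d := rfl
      have w2 : ∑ j ∈ Finset.range (K + 1), g (M.ι (s j)) = ∑ j ∈ Finset.range (K + 1), T j := by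
        have e1 : ∑ j ∈ Finset.range (K + 1), g (M.ι (s j)) =
            ∑ j ∈ Finset.range (K + 1), g (M.ι (s (j + 1))) := by
          rw [Finset.sum_range_succ', Finset.sum_range_succ, hs0']
        rw [e1]
        refine Finset.sum_congr rfl fun j _ => ?_
        rw [hι, t2]
      have w3 : ∑ d', g (q d') = N.wsum (Set.range jB ∪ {d | d ∈ R'}) ω +
          ∑ j ∈ Finset.range (K + 1), T j := by
        have e1 : ∑ j ∈ Finset.range (K + 1), T j = ∑ d', if d' ∈ R' then g (q d') else 0 := by
          rw [← Finset.sum_filter]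
          have e2 : Finset.univ.filter (fun d' => d' ∈ R') = (Finset.range (K + 1)).image r := by
            ext x
            simp only [Finset.mem_filter, Finset.mem_univ, true_and, Finset.mem_image,
              Finset.mem_range]
            constructor
            · exact hRmem x
            · rintro ⟨j, hj, rfl⟩
              rw [hR', List.mem_map]
              exact ⟨j, List.mem_range.2 hj, rfl⟩
          rw [e2, Finset.sum_image]
          · refine Finset.sum_congr rfl fun j _ => ?_
            rw [hr, t1]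
          · intro j hj j' hj' h
            simp only [Finset.coe_range, Set.mem_Iio] at hj hj'
            have h' := congrArg q h
            rw [hr, hr] at h'
            exact hinj j j' hj hj' (M.φ.injective h')
        rw [e1]
        unfold LMap.wsum
        rw [← Finset.sum_add_distrib]
        refine Finset.sum_congr rfl fun x _ => ?_
        by_cases hxR : x ∈ R'
        · have m1 : x ∈ Set.range jB ∪ {d | d ∈ R'} := Or.inr hxR
          rw [if_pos m1, if_pos hxR, zero_add]
        · rw [if_neg hxR, add_zero]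
          by_cases hxB : q x ∈ B
          · have m1 : x ∈ Set.range jB ∪ {d | d ∈ R'} := Or.inl ⟨⟨q x, hxB⟩, hq (hjB _)⟩
            rw [if_pos m1]
            exact if_pos hxB
          · have m1 : x ∉ Set.range jB ∪ {d | d ∈ R'} := by
              rintro (⟨y, rfl⟩ | h)
              · rw [hjB] at hxB
                exact hxB y.2
              · exact hxR h
            rw [if_neg m1]
            show (if q x ∈ B then 0 else ω (M.f (q x)) (M.f (M.φ (q x)))
              (M.f (M.φ (M.φ (q x))))) = ω (N.f x) (N.f (M'.φ x)) (N.f (M'.φ (M'.φ x)))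
            rw [if_neg hxB, hNf', hNf', hNf', (hφ' _ (hφR x hxR)).1, (hφ' x hxR).1]
      rw [w1, hsum (ZMod 2) g, w2, w3]
      simp only [t0]
      rw [CharTwo.add_self_eq_zero (∑ j ∈ Finset.range (K + 1), T j), add_zero]

end MSG.H72
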