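import Pool.Agent.Lib.MP_acafa7_al.MS.Iface1

/-! VOrb: the relation `SameV` is the orbit relation of `ι φ⁻¹`. -/

namespace MSG.H72

open Classical

theorem same_sigma {D : Type} (M : DMap D) (x : D) :
    M.SameV x ((M.φ.symm.trans M.ι) x) := by
  have h := M.sameV_step (M.φ.symm x)
  rw [Equiv.apply_symm_apply] at h
  exact h

theorem vorb : VOrbStatement := by
  intro D _ M x y
  constructor
  · intro h
    refine (h (fun z => Equiv.Perm.SameCycle (M.φ.symm.trans M.ι) x z) ?_).1
      (Equiv.Perm.SameCycle.refl _ x)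
    intro d
    have h1 : M.ι d = (M.φ.symm.trans M.ι) (M.φ d) := by simp
    rw [h1]
    exact (Equiv.Perm.sameCycle_apply_right).symm
  · rintro ⟨i, hi⟩
    subst hi
    have hn : ∀ n : ℕ, ∀ z, M.SameV z (((M.φ.symm.trans M.ι) ^ n) z) := by
      intro n
      induction n with
      | zero => intro z; exact M.sameV_refl z
      | succ n ih =>
        intro z
        rw [pow_succ', Equiv.Perm.mul_apply]
        exact M.sameV_trans (ih z) (same_sigma M _)
    obtain ⟨n, rfl | rfl⟩ := i.eq_nat_or_neg
    · rw [zpow_natCast]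
      exact hn n x
    · have h := hn n ((((M.φ.symm.trans M.ι) : Equiv.Perm D) ^ (-(n : ℤ))) x)
      rw [← Equiv.Perm.mul_apply, ← zpow_natCast, ← zpow_add, add_neg_cancel, zpow_zero] at h
      exact M.sameV_symm h

end MSG.H72
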