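import Pool.Agent.Lib.MP_acafa7_al.MS.Iface3

/-! Bott: the bottleneck property of `Ω / T` (10.1). -/

namespace MSG.H72

open Classical

theorem toPerm_zpow {Γ V : Type} [Group Γ] [MulAction Γ V] (g : Γ) (n : ℤ) (x : V) :
    ((MulAction.toPerm g : Equiv.Perm V) ^ n) x = g ^ n • x := by
  have h : (MulAction.toPerm g : Equiv.Perm V) ^ n = MulAction.toPerm (g ^ n) :=
    (map_zpow (MulAction.toPermHom Γ V) g n).symm
  rw [h]
  rfl

theorem ball_finite {V : Type} (G : SimpleGraph V) (hc : G.Connected)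
    (hf : ∀ x, {y | G.Adj x y}.Finite) (x : V) (R : ℕ) : {z | G.dist x z ≤ R}.Finite := by
  induction R with
  | zero =>
    refine (Set.finite_singleton x).subset ?_
    intro z hz
    have h1 : G.dist x z = 0 := Nat.le_zero.1 hz
    exact ((hc.dist_eq_zero_iff).1 h1).symm
  | succ R ih =>
    refine ((ih.biUnion (fun y _ => hf y)).union ih).subset ?_
    intro z hz
    by_cases h : G.dist x z ≤ R
    · exact Or.inr h
    · left
      obtain ⟨p, hp⟩ := hc.exists_walk_length_eq_dist z x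
      cases p with
      | nil =>
        rw [G.dist_self] at h
        omega
      | @cons _ w _ hadj p =>
        have h1 : G.dist w x ≤ p.length := G.dist_le p
        have h2 : p.length + 1 = G.dist z x := by
          rw [← hp]
          rfl
        have h3 : G.dist z x = G.dist x z := G.dist_comm
        have h4 : G.dist x z ≤ R + 1 := hz
        refine Set.mem_biUnion (x := w) ?_ hadj.symm
        show G.dist x w ≤ R
        rw [G.dist_comm]
        omega

theorem geo_split {W : Type} (H : SimpleGraph W) {x m : W} (p : H.Walk x m)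
    (hp : p.length = H.dist x m) (hc : H.Connected) (w : W) (hw : w ∈ p.support) :
    H.dist x w + H.dist w m = H.dist x m := by
  have h1 : (p.takeUntil w hw).length + (p.dropUntil w hw).length = p.length := by
    rw [← SimpleGraph.Walk.length_append, SimpleGraph.Walk.take_spec]
  have h2 := H.dist_le (p.takeUntil w hw)
  have h3 := H.dist_le (p.dropUntil w hw)
  have h4 := hc.dist_triangle (u := x) (v := w) (w := m)
  omega

theorem isW_map {V : Type} (G : SimpleGraph V) (b : V → V) (hb : ∀ x y, G.Adj x y → G.Adj (b x) (b y))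
    {x y : V} {l : List V} (h : IsW G x y l) : IsW G (b x) (b y) (l.map b) := by
  refine ⟨?_, ?_, ?_⟩
  · rw [List.isChain_map]
    exact h.chain.imp fun x y => hb x y
  · rw [List.head?_map, h.first]
    rfl
  · rw [List.getLast?_map, h.last]
    rfl

theorem isW_rev {V : Type} (G : SimpleGraph V) {x y : V} {l : List V} (h : IsW G x y l) :
    IsW G y x l.reverse := by
  refine ⟨?_, ?_, ?_⟩
  · rw [List.isChain_reverse]
    exact h.chain.imp fun x y hxy => hxy.symm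
  · rw [List.head?_reverse, h.last]
  · rw [List.getLast?_reverse, h.first]

theorem isW_cat {V : Type} (G : SimpleGraph V) {x y z : V} {l m : List V} (h : IsW G x y l)
    (h' : IsW G y z m) : IsW G x z (cat l m) := by
  obtain ⟨hc, hf, hl⟩ := h
  obtain ⟨hc', hf', hl'⟩ := h'
  cases m with
  | nil => simp at hf'
  | cons w m =>
    simp only [List.head?_cons, Option.some.injEq] at hf'
    subst hf'
    show IsW G x z (l ++ m)
    cases m with
    | nil =>
      simp only [List.getLast?_singleton, Option.some.injEq] at hl'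
      subst hl'
      rw [List.append_nil]
      exact ⟨hc, hf, hl⟩
    | cons v m =>
      refine ⟨?_, ?_, ?_⟩
      · rw [List.isChain_append]
        refine ⟨hc, ?_, ?_⟩
        · exact (List.isChain_cons_cons.1 hc').2
        · intro p hp q hq
          rw [hl] at hp
          simp only [Option.mem_def, Option.some.injEq, List.head?_cons] at hp hq
          subst hp hq
          exact (List.isChain_cons_cons.1 hc').1
      · cases l with
        | nil => simp at hf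
        | cons p l => exact hf
      · rw [List.getLast?_append, List.getLast?_cons_cons] at *
        rw [hl']
        rfl

theorem bott (hT : TubeStatement) (hP : ProperStatement) (hR : RadStatement)
    (hSi : SideStatement) (hSw : SweepStatement) (hL : LiftStatement) (hB : HomBStatement) :
    BottStatement := by
  intro V X Γ _ _ hMS hG g K' Ω hg hΩ
  have hfa : FreeAut X (MulAction.toPerm g) := (hP V X Γ hG).2 g hg
  have hconn := hMS.conn
  obtain ⟨s, hs1, hs2, hs3⟩ := hSi V X _ hfa hconn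
  obtain ⟨R, hLR, hRad⟩ := hR V X Γ hMS hG (2 * K' + 2)
  obtain ⟨sw1, sw2⟩ := hSw V X _ hfa hconn K' R s hs1 hs2 hLR hRad
  obtain ⟨hOc, hl, hd⟩ := hL V X Γ hG hconn g K' Ω hg hΩ
  obtain ⟨Δ, hΔ⟩ := hd (2 * R + 1)
  refine ⟨2 * Δ, ?_⟩
  intro x y m hxy q
  obtain ⟨p1, hp1⟩ := hOc.exists_walk_length_eq_dist x m
  obtain ⟨p2, hp2⟩ := hOc.exists_walk_length_eq_dist m y
  obtain ⟨n1, l1, hl1, -, hl1Ω, hl1w, -⟩ := hl x m p1
  obtain ⟨n2, l2, hl2, -, hl2Ω, hl2w, -⟩ := hl m y p2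
  obtain ⟨n3, l3, hl3, -, hl3Ω, hl3w, -⟩ := hl x y q
  have hcom : ∀ i : ℤ, g ^ i * g = g * g ^ i := fun i => by
    rw [← zpow_add_one, ← zpow_one_add, add_comm]
  have hlen : ∀ z ∈ Ω, (s z).length ≤ K' + 1 := by
    intro z hz
    rw [hs3]
    exact Nat.succ_le_succ (hΩ.small z hz)
  have hinv : ∀ i : ℤ, ∀ z ∈ Ω, g ^ i • z ∈ Ω := fun i z hz => hΩ.inv _ (hcom i) z hz
  have hfin : ∀ z, {z' | X.G.dist z z' ≤ R}.Finite := fun z =>
    ball_finite X.G hconn hG.locfin z R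
  have hdist : ∀ (i : ℤ) (z z' : V), X.G.dist (g ^ i • z) (g ^ i • z') ≤ X.G.dist z z' := by
    intro i z z'
    obtain ⟨p, hp⟩ := hconn.exists_walk_length_eq_dist z z'
    let φ : X.G →g X.G := ⟨fun v => g ^ i • v, fun h => (hG.adj _ _ _).2 h⟩
    rw [← hp, ← SimpleGraph.Walk.length_map φ p]
    exact X.G.dist_le _
  -- the three pieces
  set y' : V := g ^ n1 • (g ^ n2 • y.1) with hy'
  have hy'Ω : y' ∈ Ω := hinv _ _ (hinv _ _ y.2)
  have hl2' : IsW X.G (g ^ n1 • m.1) y' (l2.map fun v => g ^ n1 • v) :=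
    isW_map X.G _ (fun _ _ h => (hG.adj _ _ _).2 h) hl2
  obtain ⟨lt, hlt, hltK, hltS⟩ := sw2 y' (n3 - (n1 + n2)) (hlen y' hy'Ω)
  have hend : ((MulAction.toPerm g : Equiv.Perm V) ^ (n3 - (n1 + n2))) y' = g ^ n3 • y.1 := by
    rw [toPerm_zpow, hy', smul_smul, smul_smul, ← zpow_add, ← zpow_add]
    congr 2
    ring
  rw [hend] at hlt hltS
  set S₀ : Set V := ⋃ z ∈ {z | z ∈ l1}, {z' | X.G.dist z z' ≤ R} with hS₀
  set S₁ : Set V := (⋃ z ∈ {z | z ∈ l2.map fun v => g ^ n1 • v}, {z' | X.G.dist z z' ≤ R}) ∪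
    ⋃ i ∈ Set.Icc (-(|n3 - (n1 + n2)| + 1)) (|n3 - (n1 + n2)| + 1),
      {z' | X.G.dist (((MulAction.toPerm g : Equiv.Perm V) ^ (i : ℤ)) y') z' ≤ R} with hS₁
  set S₂ : Set V := ⋃ z ∈ {z | z ∈ l3}, {z' | X.G.dist z z' ≤ R} with hS₂
  have f0 : S₀.Finite := (List.finite_toSet l1).biUnion fun z _ => hfin z
  have f1 : S₁.Finite := ((List.finite_toSet _).biUnion fun z _ => hfin z).union
    ((Set.finite_Icc _ _).biUnion fun i _ => hfin _)
  have f2 : S₂.Finite := (List.finite_toSet l3).biUnion fun z _ => hfin z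
  have N0 := sw1 x.1 (g ^ n1 • m.1) l1 hl1 (fun z hz => hlen z (hl1Ω z hz)) S₀
    (fun z hz z' hz' => Set.mem_biUnion (x := z) hz hz')
  have N1a := sw1 (g ^ n1 • m.1) y' (l2.map fun v => g ^ n1 • v) hl2' (fun z hz => by
    obtain ⟨v, hv, rfl⟩ := List.mem_map.1 hz
    exact hlen _ (hinv _ _ (hl2Ω v hv))) S₁
    (fun z hz z' hz' => Or.inl (Set.mem_biUnion (x := z) hz hz'))
  have N1b := hltS S₁ (fun i z hi hz => Or.inr (Set.mem_biUnion (x := i) (abs_le.1 hi) hz))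
  have N1 := (hB V X.G (MulAction.toPerm g) hfa.adj S₁ (g ^ n1 • m.1) y' (g ^ n3 • y.1)
    (l2.map fun v => g ^ n1 • v) lt _ _ _ hl2' hlt (hs1 _) (hs1 _) (hs1 _)).1 N1a N1b
  have N2a := sw1 x.1 (g ^ n3 • y.1) l3 hl3 (fun z hz => hlen z (hl3Ω z hz)) S₂
    (fun z hz z' hz' => Set.mem_biUnion (x := z) hz hz')
  have N2 := (hB V X.G (MulAction.toPerm g) hfa.adj S₂ x.1 (g ^ n3 • y.1) (g ^ n3 • y.1) l3 
    [g ^ n3 • y.1] _ _ _ hl3 ⟨List.isChain_singleton _, rfl, rfl⟩ (hs1 _) (hs1 _) (hs1 _)).2.1 N2a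
  obtain ⟨u, v, w, ⟨i, hu⟩, ⟨j, hv⟩, ⟨k, hw⟩, huv, hvw, huw⟩ :=
    hT V X (MulAction.toPerm g) hMS hfa hG.locfin S₀ S₁ S₂ f0 f1 f2 x.1 (g ^ n1 • m.1)
      (g ^ n3 • y.1) l1 (cat (l2.map fun v => g ^ n1 • v) lt) l3.reverse _ _ _ hl1
      (isW_cat X.G hl2' hlt) (isW_rev X.G hl3) (hs1 _) (hs1 _) (hs1 _) N0 N1 N2
  -- reading off
  have hback : ∀ (i : ℤ) (u z : V), X.G.dist z (((MulAction.toPerm g : Equiv.Perm V) ^ i) u) ≤ R →
      X.G.dist (g ^ (-i) • z) u ≤ R := by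
    intro i u z h
    rw [toPerm_zpow] at h
    have h1 := hdist (-i) z (g ^ i • u)
    rw [smul_smul, ← zpow_add, neg_add_cancel, zpow_zero, one_smul] at h1
    exact h1.trans h
  have A0 : ∃ w₀ ∈ p1.support, ∃ i : ℤ, X.G.dist (g ^ i • w₀.1) u ≤ R := by
    obtain ⟨z, hz, hz'⟩ := Set.mem_iUnion₂.1 hu
    obtain ⟨w₀, hw₀, i', rfl⟩ := hl1w z hz
    refine ⟨w₀, hw₀, -i + i', ?_⟩
    have := hback i u _ hz'
    rwa [smul_smul, ← zpow_add] at this
  have A1 : ∃ w₁ ∈ p2.support, ∃ i : ℤ, X.G.dist (g ^ i • w₁.1) v ≤ R := by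
    rcases hv with hv | hv
    · obtain ⟨z, hz, hz'⟩ := Set.mem_iUnion₂.1 hv
      obtain ⟨z0, hz0, rfl⟩ := List.mem_map.1 hz
      obtain ⟨w₁, hw₁, i', rfl⟩ := hl2w z0 hz0
      refine ⟨w₁, hw₁, -j + n1 + i', ?_⟩
      have := hback j v _ hz'
      rwa [smul_smul, smul_smul, ← zpow_add, ← zpow_add] at this
    · obtain ⟨i', -, hz'⟩ := Set.mem_iUnion₂.1 hv
      refine ⟨y, p2.end_mem_support, -j + (i' + (n1 + n2)), ?_⟩
      have := hback j v _ hz'
      rw [toPerm_zpow, hy'] at this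
      rw [smul_smul, smul_smul, smul_smul, ← zpow_add, ← zpow_add, ← zpow_add] at this
      convert this using 4
      ring
  have A2 : ∃ w₂ ∈ q.support, ∃ i : ℤ, X.G.dist (g ^ i • w₂.1) w ≤ R := by
    obtain ⟨z, hz, hz'⟩ := Set.mem_iUnion₂.1 hw
    obtain ⟨w₀, hw₀, i', rfl⟩ := hl3w z hz
    refine ⟨w₀, hw₀, -k + i', ?_⟩
    have := hback k w _ hz'
    rwa [smul_smul, ← zpow_add] at this
  obtain ⟨w₀, hw₀, i₀, hi₀⟩ := A0
  obtain ⟨w₁, hw₁, i₁, hi₁⟩ := A1
  obtain ⟨w₂, hw₂, i₂, hi₂⟩ := A2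
  have hNr : ∀ z z' : V, Nr X.G z z' → X.G.dist z z' ≤ 1 := by
    rintro z z' (rfl | h)
    · rw [X.G.dist_self]
      exact Nat.zero_le _
    · exact (SimpleGraph.dist_eq_one_iff_adj.2 h).le
  have hcomp : ∀ (p p' : Ω) (e e' : ℤ) (z z' : V), X.G.dist (g ^ e • p.1) z ≤ R →
      X.G.dist (g ^ e' • p'.1) z' ≤ R → Nr X.G z z' → (OmG X g Ω).dist p p' ≤ Δ := by
    intro p p' e e' z z' h1 h2 h3
    refine hΔ p p' (-e + e') ?_
    have h4 := hdist (-e) (g ^ e • p.1) (g ^ e' • p'.1)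
    rw [smul_smul, smul_smul, ← zpow_add, ← zpow_add, neg_add_cancel, zpow_zero, one_smul] at h4
    refine h4.trans ?_
    have h5 := hconn.dist_triangle (u := g ^ e • p.1) (v := z) (w := g ^ e' • p'.1)
    have h6 := hconn.dist_triangle (u := z) (v := z') (w := g ^ e' • p'.1)
    have h7 := hNr z z' h3
    rw [X.G.dist_comm] at h2
    omega
  have d01 := hcomp w₀ w₁ i₀ i₁ u v hi₀ hi₁ huv
  have d02 := hcomp w₀ w₂ i₀ i₂ u w hi₀ hi₂ huw
  have g0 := geo_split (OmG X g Ω) p1 hp1 hOc w₀ hw₀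
  have g1 := geo_split (OmG X g Ω) p2 hp2 hOc w₁ hw₁
  have t1 := hOc.dist_triangle (u := x) (v := w₀) (w := y)
  have t2 := hOc.dist_triangle (u := w₀) (v := w₁) (w := y)
  have t3 := hOc.dist_triangle (u := m) (v := w₀) (w := w₂)
  have t4 : (OmG X g Ω).dist m w₀ = (OmG X g Ω).dist w₀ m := (OmG X g Ω).dist_comm
  refine ⟨w₂, hw₂, ?_⟩
  omega

end MSG.H72
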